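import Pool.Agent.Helper15.FC.St3

/-!
# Project FC, module BKD: the generating function of `Bkd`
-/

set_option autoImplicit false

namespace Pool.Agent.Helper36.FC

open Pool.Agent.Helper15.FC Polynomial

noncomputable section

/-- the weighted norm of a polynomial -/
def nm (q : ℝ) (P : ℝ[X]) : ℝ := P.sum fun i a => |a| * (q ^ i)⁻¹

theorem nm_range (q : ℝ) (P : ℝ[X]) (n : ℕ) (h : P.natDegree < n) :
    nm q P = ∑ i ∈ Finset.range n, |P.coeff i| * (q ^ i)⁻¹ := by
  unfold nm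
  exact Polynomial.sum_over_range' P (fun i => by simp) n h

theorem nm_zero (q : ℝ) : nm q 0 = 0 := by simp [nm]

theorem nm_nonneg {q : ℝ} (hq : 0 < q) (P : ℝ[X]) : 0 ≤ nm q P := by
  unfold nm
  exact Finset.sum_nonneg fun i _ => by positivity

theorem nm_add {q : ℝ} (hq : 0 < q) (P Q : ℝ[X]) : nm q (P + Q) ≤ nm q P + nm q Q := by
  set n := max (P + Q).natDegree (max P.natDegree Q.natDegree) + 1 with hn
  rw [nm_range q (P + Q) n (by omega), nm_range q P n (by omega), nm_range q Q n (by omega),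
    ← Finset.sum_add_distrib]
  refine Finset.sum_le_sum fun i _ => ?_
  rw [← add_mul, coeff_add]
  exact mul_le_mul_of_nonneg_right (abs_add_le _ _) (by positivity)

theorem nm_sum {q : ℝ} (hq : 0 < q) {ι : Type} (s : Finset ι) (P : ι → ℝ[X]) :
    nm q (∑ i ∈ s, P i) ≤ ∑ i ∈ s, nm q (P i) := by
  classical
  induction s using Finset.induction_on with
  | empty => simp [nm_zero]
  | insert a s ha ih =>
    rw [Finset.sum_insert ha, Finset.sum_insert ha]
    exact (nm_add hq _ _).trans (add_le_add le_rfl ih)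

theorem nm_monomial (q : ℝ) (n : ℕ) (a : ℝ) : nm q (monomial n a) = |a| * (q ^ n)⁻¹ := by
  unfold nm
  rw [Polynomial.sum_monomial_index]
  simp

theorem nm_mul {q : ℝ} (hq : 0 < q) (P Q : ℝ[X]) : nm q (P * Q) ≤ nm q P * nm q Q := by
  rw [Polynomial.mul_eq_sum_sum]
  refine (nm_sum hq _ _).trans ?_
  have h1 : nm q P * nm q Q = ∑ i ∈ P.support, |P.coeff i| * (q ^ i)⁻¹ * nm q Q := by
    rw [← Finset.sum_mul]
    rfl
  rw [h1]
  refine Finset.sum_le_sum fun i _ => ?_
  have h2 : |P.coeff i| * (q ^ i)⁻¹ * nm q Q = ∑ j ∈ Q.support,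
      |P.coeff i * Q.coeff j| * (q ^ (i + j))⁻¹ := by
    unfold nm Polynomial.sum
    rw [Finset.mul_sum]
    refine Finset.sum_congr rfl fun j _ => ?_
    rw [abs_mul, pow_add, mul_inv]
    ring
  rw [h2]
  refine (nm_sum hq _ _).trans (le_of_eq ?_)
  exact Finset.sum_congr rfl fun j _ => nm_monomial q _ _

/-- the geometric series -/
def Geo (q : ℝ) : PowerSeries ℝ := PowerSeries.mk fun n => q ^ n

theorem geo_mul (q : ℝ) : Geo q * (1 - PowerSeries.C q * PowerSeries.X) = 1 := by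
  ext n
  rw [mul_sub, mul_one, map_sub, ← mul_assoc]
  rcases n with _ | n
  · rw [PowerSeries.coeff_zero_mul_X]
    simp [Geo]
  · rw [PowerSeries.coeff_succ_mul_X, PowerSeries.coeff_mul_C, Geo, PowerSeries.coeff_mk,
      PowerSeries.coeff_mk, PowerSeries.coeff_one, if_neg (Nat.succ_ne_zero n), pow_succ, sub_self]

theorem coeff_XG (q : ℝ) (m i : ℕ) : PowerSeries.coeff i (PowerSeries.X ^ m * Geo q) =
    if m ≤ i then q ^ (i - m) else 0 := by
  rw [PowerSeries.coeff_X_pow_mul']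
  split_ifs
  · rw [Geo, PowerSeries.coeff_mk]
  · rfl

section

variable {F : Type} [Field F] [Fintype F]

omit [Fintype F] in
theorem mob_abs (c : F[X]) : |((mob c : ℤ) : ℝ)| ≤ 1 := by
  unfold mob
  split_ifs
  · push_cast
    rw [abs_pow, abs_neg, abs_one, one_pow]
  · simp

theorem qr_pos : 0 < qr F := Nat.cast_pos.2 Fintype.card_pos

theorem qr_one : 1 ≤ qr F := by
  have h : 1 ≤ Fintype.card F := Fintype.card_pos
  exact_mod_cast h

theorem dv_div {d e : F[X]} (hd : d.Monic) (he : e ∈ Dv d) :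
    e.Monic ∧ (d / e).Monic ∧ e * (d / e) = d ∧ e.natDegree + (d / e).natDegree = d.natDegree ∧
      tau (d / e) ≤ tau d := by
  obtain ⟨h1, h2⟩ := (mem_Dv hd.ne_zero).1 he
  have h3 : e * (d / e) = d := EuclideanDomain.mul_div_cancel' h1.ne_zero h2
  have h4 : (d / e).Monic := h1.of_mul_monic_left (by rw [h3]; exact hd)
  refine ⟨h1, h4, h3, ?_, ?_⟩
  · rw [← h1.natDegree_mul h4, h3]
  · unfold tau
    have h5 : Dv (d / e) ⊆ Dv d := by
      intro c hc
      obtain ⟨h6, h7⟩ := (mem_Dv h4.ne_zero).1 hc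
      exact (mem_Dv hd.ne_zero).2 ⟨h6, h7.trans ⟨e, by rw [mul_comm]; exact h3.symm⟩⟩
    exact_mod_cast Finset.card_le_card h5

theorem bkd_zero (hDKR : StDKR) (d : F[X]) (hd : d.Monic) (n : ℕ) :
    ((d = 1 ∧ n = 0) → Bkd 0 d n = 1) ∧ (¬ (d = 1 ∧ n = 0) → Bkd 0 d n = 0) := by
  classical
  obtain ⟨⟨k1, k2⟩, -, -, -⟩ := hDKR F
  unfold Bkd
  constructor
  · intro h
    obtain ⟨hd1, hn⟩ := h
    subst hd1
    subst hn
    rw [Finset.sum_eq_single (1 : F[X])]
    · rw [k1]
      norm_num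
    · intro f hf hne
      have hm := (mem_Mn.1 (Finset.mem_filter.1 hf).1).1
      rw [k2 f hm hne]
      norm_num
    · intro h1
      exact absurd (Finset.mem_filter.2 ⟨mem_Mn.2 ⟨monic_one, natDegree_one⟩, dvd_refl _⟩) h1
  · intro h
    refine Finset.sum_eq_zero fun f hf => ?_
    obtain ⟨hf1, hf2⟩ := Finset.mem_filter.1 hf
    obtain ⟨hm, hdeg⟩ := mem_Mn.1 hf1
    have hne : f ≠ 1 := by
      rintro rfl
      refine h ⟨hd.eq_one_of_isUnit (isUnit_of_dvd_one hf2), ?_⟩
      rw [← hdeg, natDegree_one]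
    rw [k2 f hm hne]
    norm_num

/-- the factor of a divisor `e` -/
def Pe (d e : F[X]) : ℝ[X] := ∑ c ∈ Dv (d / e), monomial (e.natDegree + c.natDegree) (mob c : ℝ)

theorem pe_deg {d e : F[X]} (hd : d.Monic) (he : e ∈ Dv d) : (Pe d e).natDegree ≤ d.natDegree := by
  obtain ⟨-, h2, -, h4, -⟩ := dv_div hd he
  unfold Pe
  refine natDegree_sum_le_of_forall_le _ _ fun c hc => ?_
  refine (natDegree_monomial_le _).trans ?_
  have h5 := natDegree_le_of_dvd ((mem_Dv h2.ne_zero).1 hc).2 h2.ne_zero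
  omega

theorem pe_nm {d e : F[X]} : nm (qr F) (Pe d e) ≤ (qr F ^ e.natDegree)⁻¹ * tau (d / e) := by
  have hq : 0 < qr F := qr_pos
  unfold Pe
  refine (nm_sum hq _ _).trans ?_
  have h1 : ∀ c ∈ Dv (d / e), nm (qr F) (monomial (e.natDegree + c.natDegree) (mob c : ℝ)) ≤
      (qr F ^ e.natDegree)⁻¹ := by
    intro c _
    rw [nm_monomial, pow_add, mul_inv]
    have h2 : (qr F ^ c.natDegree)⁻¹ ≤ 1 := inv_le_one_of_one_le₀ (one_le_pow₀ qr_one)
    have h3 : 0 ≤ (qr F ^ c.natDegree)⁻¹ := by positivity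
    have h4 : 0 ≤ (qr F ^ e.natDegree)⁻¹ := by positivity
    calc |((mob c : ℤ) : ℝ)| * ((qr F ^ e.natDegree)⁻¹ * (qr F ^ c.natDegree)⁻¹)
        ≤ 1 * ((qr F ^ e.natDegree)⁻¹ * 1) :=
          mul_le_mul (mob_abs c) (mul_le_mul_of_nonneg_left h2 h4) (mul_nonneg h4 h3) zero_le_one
      _ = _ := by ring
  refine (Finset.sum_le_sum h1).trans (le_of_eq ?_)
  rw [Finset.sum_const, nsmul_eq_mul, mul_comm]
  rfl

theorem pe_series (d e : F[X]) (i : ℕ) :
    PowerSeries.coeff i ((Pe d e : PowerSeries ℝ) * Geo (qr F)) =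
      ∑ c ∈ Dv (d / e), (mob c : ℝ) * (if e.natDegree + c.natDegree ≤ i then
        qr F ^ (i - e.natDegree - c.natDegree) else 0) := by
  have h1 : (Pe d e : PowerSeries ℝ) = ∑ c ∈ Dv (d / e),
      PowerSeries.C (mob c : ℝ) * PowerSeries.X ^ (e.natDegree + c.natDegree) := by
    unfold Pe
    have h2 : ((∑ c ∈ Dv (d / e), monomial (e.natDegree + c.natDegree) (mob c : ℝ) : ℝ[X]) :
        PowerSeries ℝ) = Polynomial.coeToPowerSeries.ringHom
          (∑ c ∈ Dv (d / e), monomial (e.natDegree + c.natDegree) (mob c : ℝ) : ℝ[X]) := rfl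
    rw [h2, map_sum]
    refine Finset.sum_congr rfl fun c _ => ?_
    rw [← C_mul_X_pow_eq_monomial, map_mul, map_pow]
    show ((C (mob c : ℝ) : ℝ[X]) : PowerSeries ℝ) * ((X : ℝ[X]) : PowerSeries ℝ) ^ _ = _
    rw [Polynomial.coe_C, Polynomial.coe_X]
  rw [h1, Finset.sum_mul, map_sum]
  refine Finset.sum_congr rfl fun c _ => ?_
  rw [mul_assoc, PowerSeries.coeff_C_mul, coeff_XG]
  congr 1
  split_ifs
  · rw [Nat.sub_sub]
  · rfl

end

theorem hBKD (hDKR : StDKR) (hGCC : StGCC) : StBKD := by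
  intro F _ _ k
  have hq : 0 < qr F := qr_pos
  suffices hmain : ∀ d : F[X], d.Monic → ∃ Nn : ℝ[X], Nn.natDegree ≤ k * d.natDegree ∧
      PowerSeries.mk (fun n => Bkd k d n) * (1 - PowerSeries.C (qr F) * PowerSeries.X) ^ k =
        (Nn : PowerSeries ℝ) ∧
      nm (qr F) Nn ≤ (qr F ^ d.natDegree)⁻¹ * tau d ^ (2 * k) by
    intro d hd
    obtain ⟨Nn, h1, h2, h3⟩ := hmain d hd
    refine ⟨Nn, h1, h2, ?_⟩
    rw [← nm_range (qr F) Nn _ (Nat.lt_succ_of_le h1)]
    exact h3
  induction k with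
  | zero =>
    intro d hd
    by_cases h1 : d = 1
    · refine ⟨1, by simp, ?_, ?_⟩
      · rw [pow_zero, mul_one, Polynomial.coe_one]
        ext n
        rw [PowerSeries.coeff_mk, PowerSeries.coeff_one]
        by_cases hn : n = 0
        · rw [(bkd_zero hDKR d hd n).1 ⟨h1, hn⟩, if_pos hn]
        · rw [(bkd_zero hDKR d hd n).2 (fun h => hn h.2), if_neg hn]
      · rw [show (1 : ℝ[X]) = monomial 0 1 from rfl, nm_monomial, h1]
        simp
    · refine ⟨0, by simp, ?_, ?_⟩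
      · rw [pow_zero, mul_one, Polynomial.coe_zero]
        ext n
        rw [PowerSeries.coeff_mk, (bkd_zero hDKR d hd n).2 (fun h => h1 h.1)]
        simp
      · rw [nm_zero]
        exact mul_nonneg (inv_nonneg.2 (pow_nonneg hq.le _)) (pow_nonneg (Nat.cast_nonneg _) _)
  | succ k ih =>
    intro d hd
    have hch : ∀ e : F[X], ∃ Nn : ℝ[X], e ∈ Dv d → (Nn.natDegree ≤ k * (d / e).natDegree ∧
      PowerSeries.mk (fun n => Bkd k (d / e) n) * (1 - PowerSeries.C (qr F) * PowerSeries.X) ^ k =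
        (Nn : PowerSeries ℝ) ∧
      nm (qr F) Nn ≤ (qr F ^ (d / e).natDegree)⁻¹ * tau (d / e) ^ (2 * k)) := by
      intro e
      by_cases he : e ∈ Dv d
      · obtain ⟨Nn, hN⟩ := ih (d / e) (dv_div hd he).2.1
        exact ⟨Nn, fun _ => hN⟩
      · exact ⟨0, fun h => absurd h he⟩
    choose Nn hNn using hch
    refine ⟨∑ e ∈ Dv d, Pe d e * Nn e, ?_, ?_, ?_⟩
    · refine natDegree_sum_le_of_forall_le _ _ fun e he => ?_
      obtain ⟨-, -, -, h4, -⟩ := dv_div hd he
      have h5 := (hNn e he).1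
      have h6 := pe_deg hd he
      have h7 : k * (d / e).natDegree ≤ k * d.natDegree := Nat.mul_le_mul_left k (by omega)
      refine natDegree_mul_le.trans ?_
      rw [Nat.succ_mul]
      omega
    · have hB : PowerSeries.mk (fun n => Bkd (k + 1) d n) = ∑ e ∈ Dv d,
          ((Pe d e : PowerSeries ℝ) * Geo (qr F)) * PowerSeries.mk (fun n => Bkd k (d / e) n) := by
        ext n
        rw [PowerSeries.coeff_mk, hGCC F k n d hd, map_sum, Finset.sum_comm]
        refine Finset.sum_congr rfl fun e _ => ?_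
        rw [PowerSeries.coeff_mul, Finset.Nat.sum_antidiagonal_eq_sum_range_succ_mk]
        refine Finset.sum_congr rfl fun i _ => ?_
        rw [pe_series, PowerSeries.coeff_mk]
      rw [hB, Finset.sum_mul]
      have h2 : ((∑ e ∈ Dv d, Pe d e * Nn e : ℝ[X]) : PowerSeries ℝ) =
          ∑ e ∈ Dv d, (Pe d e : PowerSeries ℝ) * (Nn e : PowerSeries ℝ) := by
        have h3 : ((∑ e ∈ Dv d, Pe d e * Nn e : ℝ[X]) : PowerSeries ℝ) =
          Polynomial.coeToPowerSeries.ringHom (∑ e ∈ Dv d, Pe d e * Nn e : ℝ[X]) := rfl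
        rw [h3, map_sum]
        refine Finset.sum_congr rfl fun e _ => ?_
        rw [map_mul]
        rfl
      rw [h2]
      refine Finset.sum_congr rfl fun e he => ?_
      have h4 := geo_mul (qr F)
      rw [← (hNn e he).2.1, pow_succ]
      calc (Pe d e : PowerSeries ℝ) * Geo (qr F) * PowerSeries.mk (fun n => Bkd k (d / e) n) *
            ((1 - PowerSeries.C (qr F) * PowerSeries.X) ^ k *
              (1 - PowerSeries.C (qr F) * PowerSeries.X))
          = (Pe d e : PowerSeries ℝ) * (PowerSeries.mk (fun n => Bkd k (d / e) n) *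
            (1 - PowerSeries.C (qr F) * PowerSeries.X) ^ k) *
              (Geo (qr F) * (1 - PowerSeries.C (qr F) * PowerSeries.X)) := by ring
        _ = _ := by rw [h4, mul_one]
    · refine (nm_sum hq _ _).trans ?_
      have htau0 : 0 ≤ tau d := Nat.cast_nonneg _
      have h1 : ∀ e ∈ Dv d, nm (qr F) (Pe d e * Nn e) ≤
          (qr F ^ d.natDegree)⁻¹ * tau d ^ (2 * k + 1) := by
        intro e he
        obtain ⟨-, -, -, h4, h5⟩ := dv_div hd he
        have htau : 0 ≤ tau (d / e) := Nat.cast_nonneg _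
        refine (nm_mul hq _ _).trans ?_
        calc nm (qr F) (Pe d e) * nm (qr F) (Nn e)
            ≤ ((qr F ^ e.natDegree)⁻¹ * tau (d / e)) *
              ((qr F ^ (d / e).natDegree)⁻¹ * tau (d / e) ^ (2 * k)) :=
              mul_le_mul pe_nm (hNn e he).2.2 (nm_nonneg hq _) (by positivity)
          _ = (qr F ^ d.natDegree)⁻¹ * tau (d / e) ^ (2 * k + 1) := by
              rw [← h4, pow_add, mul_inv, pow_succ]
              ring
          _ ≤ (qr F ^ d.natDegree)⁻¹ * tau d ^ (2 * k + 1) :=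
              mul_le_mul_of_nonneg_left (pow_le_pow_left₀ htau h5 _) (by positivity)
      refine (Finset.sum_le_sum h1).trans (le_of_eq ?_)
      rw [Finset.sum_const, nsmul_eq_mul]
      show tau d * _ = _
      ring

end

end Pool.Agent.Helper36.FC
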