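import Pool.Agent.Helper15.FC.St1

/-!
# Project FC, module KER: a pigeonhole argument
-/

set_option autoImplicit false

namespace Pool.Agent.Helper36.FC

open Pool.Agent.Helper15.FC Polynomial

theorem hKER : StKER := by
  intro L _ _ p hp _ m M V W _ _ ψ hψ hlt
  have hch : CharP (PowerSeries L) p := charP_of_injective_ringHom
    (f := (PowerSeries.C : L →+* PowerSeries L)) PowerSeries.C_injective p
  have hV : Finite V := Module.finite_of_finite L
  have hW : Finite W := Module.finite_of_finite L
  let Φ : (Fin M → V) → W := fun s => ⟨∑ i, (s i : PowerSeries L) ^ (p ^ m) * ψ i,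
    W.sum_mem fun i _ => hψ _ (s i).2 i⟩
  have hcV : Nat.card (Fin M → V) = Nat.card L ^ (Module.finrank L V * M) := by
    rw [Nat.card_fun, Nat.card_eq_fintype_card (α := Fin M), Fintype.card_fin,
      Module.natCard_eq_pow_finrank (K := L) (V := V), pow_mul]
  have hcW : Nat.card W = Nat.card L ^ Module.finrank L W :=
    Module.natCard_eq_pow_finrank
  have hL : 1 < Nat.card L := Finite.one_lt_card
  have hni : ¬ Function.Injective Φ := by
    intro hinj
    have h1 := Nat.card_le_card_of_injective Φ hinj
    rw [hcV, hcW] at h1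
    exact absurd (Nat.pow_lt_pow_right hL hlt) (not_lt.2 h1)
  rw [Function.Injective] at hni
  push Not at hni
  obtain ⟨s, t, hst, hne⟩ := hni
  have h2 : ∑ i, (s i : PowerSeries L) ^ (p ^ m) * ψ i = ∑ i, (t i : PowerSeries L) ^ (p ^ m) * ψ i :=
    congrArg Subtype.val hst
  refine ⟨fun i => (s i : PowerSeries L) - t i, fun i => V.sub_mem (s i).2 (t i).2, ?_, ?_⟩
  · by_contra h
    push Not at h
    exact hne (funext fun i => Subtype.ext (sub_eq_zero.1 (h i)))
  · have h3 : ∀ i, ((s i : PowerSeries L) - t i) ^ (p ^ m) * ψ i =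
        (s i : PowerSeries L) ^ (p ^ m) * ψ i - (t i : PowerSeries L) ^ (p ^ m) * ψ i := by
      intro i
      rw [sub_pow_char_pow, sub_mul]
    rw [Finset.sum_congr rfl fun i _ => h3 i, Finset.sum_sub_distrib, h2, sub_self]

end Pool.Agent.Helper36.FC
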