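import Pool.Agent.Helper15.FC.St5

set_option autoImplicit false

/-!
Module KLC of project FC (MP_16cbc0_nt).
-/

open Polynomial

namespace Pool.Agent.Helper36.FC

open Pool.Agent.Helper15.FC

noncomputable section

/-- the polynomial with values `sum_i N_i q^(-i) binom(n-i+K,K)` -/
def Rp (q : ℝ) (K D : ℕ) (Nn : ℝ[X]) : ℝ[X] :=
  ∑ i ∈ Finset.range (D + 1), C (Nn.coeff i * (q ^ i)⁻¹ * (K.factorial : ℝ)⁻¹) *
    (ascPochhammer ℝ K).comp (X + C (1 - (i : ℝ)))

theorem rp_coeff (q : ℝ) (K D : ℕ) (Nn : ℝ[X]) (hD : Nn.natDegree ≤ D) :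
    (Rp q K D Nn).coeff K = (K.factorial : ℝ)⁻¹ * Nn.eval q⁻¹ := by
  unfold Rp
  rw [finsetSum_coeff, eval_eq_sum_range' (Nat.lt_succ_of_le hD), Finset.mul_sum]
  refine Finset.sum_congr rfl fun i _ => ?_
  rw [coeff_C_mul]
  have h1 : ((ascPochhammer ℝ K).comp (X + C (1 - (i : ℝ)))).coeff K = 1 := by
    have h2 : ((ascPochhammer ℝ K).comp (X + C (1 - (i : ℝ)))).Monic :=
      (monic_ascPochhammer ℝ K).comp_X_add_C _
    have h3 : ((ascPochhammer ℝ K).comp (X + C (1 - (i : ℝ)))).natDegree = K := by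
      rw [natDegree_comp, ascPochhammer_natDegree, natDegree_X_add_C, mul_one]
    have h4 := h2.coeff_natDegree
    rwa [h3] at h4
  rw [h1, inv_pow]
  ring

theorem geo_pow (q : ℝ) (K n : ℕ) :
    PowerSeries.coeff n (PowerSeries.mk (fun n => q ^ n) ^ (K + 1)) =
      q ^ n * ((K + n).choose K : ℝ) := by
  have h1 : PowerSeries.mk (fun n => q ^ n) = PowerSeries.rescale q (PowerSeries.mk 1) := by
    ext m
    simp [PowerSeries.coeff_rescale]
  rw [h1, ← map_pow, PowerSeries.mk_one_pow_eq_mk_choose_add, PowerSeries.coeff_rescale,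
    PowerSeries.coeff_mk]

theorem geo_inv (q : ℝ) :
    (1 - PowerSeries.C q * PowerSeries.X) * PowerSeries.mk (fun n => q ^ n) = 1 := by
  ext n
  rw [sub_mul, one_mul, map_sub, PowerSeries.coeff_mk, PowerSeries.coeff_one, mul_assoc,
    PowerSeries.coeff_C_mul]
  cases n with
  | zero => simp
  | succ n =>
    rw [PowerSeries.coeff_succ_X_mul, PowerSeries.coeff_mk, if_neg (Nat.succ_ne_zero n), pow_succ]
    ring

theorem rp_eval (q : ℝ) (hq : q ≠ 0) (K D : ℕ) (Nn : ℝ[X]) (hD : Nn.natDegree ≤ D) (B : ℕ → ℝ)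
    (hB : PowerSeries.mk B * (1 - PowerSeries.C q * PowerSeries.X) ^ (K + 1) =
      (Nn : PowerSeries ℝ)) (n : ℕ) (hn : D ≤ n) :
    B n = q ^ n * (Rp q K D Nn).eval (n : ℝ) := by
  have h1 : PowerSeries.mk B = (Nn : PowerSeries ℝ) *
      PowerSeries.mk (fun n => q ^ n) ^ (K + 1) := by
    rw [← hB, mul_assoc, ← mul_pow, geo_inv, one_pow, mul_one]
  have h2 : B n = PowerSeries.coeff n (PowerSeries.mk B) := by rw [PowerSeries.coeff_mk]
  rw [h2, h1, PowerSeries.coeff_mul, Finset.Nat.sum_antidiagonal_eq_sum_range_succ_mk]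
  unfold Rp
  rw [eval_finsetSum, Finset.mul_sum]
  have h3 : Finset.range (D + 1) ⊆ Finset.range (n + 1) :=
    Finset.range_subset_range.2 (by omega)
  rw [← Finset.sum_subset h3]
  · refine Finset.sum_congr rfl fun i hi => ?_
    have hi' : i ≤ n := by
      have := Finset.mem_range.1 hi
      omega
    rw [geo_pow, Polynomial.coeff_coe, eval_mul, eval_C, eval_comp, eval_add, eval_X, eval_C]
    have h4 : (n : ℝ) + (1 - (i : ℝ)) = ((n - i + 1 : ℕ) : ℝ) := by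
      push_cast [Nat.cast_sub hi']
      ring
    have h5 : (K.factorial : ℝ) ≠ 0 := Nat.cast_ne_zero.2 (Nat.factorial_ne_zero K)
    have h6 : q ^ n = q ^ i * q ^ (n - i) := by
      rw [← pow_add]
      congr 1
      omega
    have h7 : q ^ i ≠ 0 := pow_ne_zero _ hq
    rw [h4, ascPochhammer_nat_eq_natCast_ascFactorial, Nat.ascFactorial_eq_factorial_mul_choose,
      Nat.cast_mul, h6, add_comm (n - i) K]
    field_simp
  · intro i _ hi
    have h4 : Nn.natDegree < i := by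
      rw [Finset.mem_range] at hi
      omega
    rw [Polynomial.coeff_coe, coeff_eq_zero_of_natDegree_lt h4, zero_mul]

section

variable {F : Type} [Field F] [Fintype F]

theorem ak_eq (k : ℕ) (r : F[X]) (n : ℕ) :
    Ak k r n = (1 / (phi r : ℝ)) * ∑ d ∈ Dv r, (mob (r / d) : ℝ) * qr F ^ d.natDegree *
      Bkd k d n := by
  classical
  unfold Ak
  congr 1
  have h1 : ∀ f ∈ Mn F n, (dk k f : ℝ) * (cram r f : ℝ) =
      ∑ d ∈ Dv r, if d ∣ f then (mob (r / d) : ℝ) * qr F ^ d.natDegree * (dk k f : ℝ) else 0 := by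
    intro f _
    unfold cram
    push_cast
    rw [Finset.mul_sum, Finset.sum_filter]
    refine Finset.sum_congr rfl fun d _ => ?_
    split_ifs
    · ring
    · rfl
  rw [Finset.sum_congr rfl h1, Finset.sum_comm]
  refine Finset.sum_congr rfl fun d _ => ?_
  unfold Bkd
  rw [Finset.mul_sum, Finset.sum_filter]

theorem div_facts {d e : F[X]} (hd : d.Monic) (he : e ∈ Dv d) :
    e.Monic ∧ (d / e).Monic ∧ e * (d / e) = d := by
  obtain ⟨h1, h2⟩ := (mem_Dv hd.ne_zero).1 he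
  have h3 : e * (d / e) = d := EuclideanDomain.mul_div_cancel' h1.ne_zero h2
  exact ⟨h1, h1.of_mul_monic_left (by rw [h3]; exact hd), h3⟩

omit [Fintype F] in
theorem div_of_mul {d a b : F[X]} (ha : a ≠ 0) (h : a * b = d) : d / a = b := by
  rw [← h, mul_comm, mul_div_cancel_right₀ _ ha]

/-- Moebius inversion -/
theorem inversion (hMOB : StMOB) (r : F[X]) (hr : r.Monic) (g : F[X] → ℝ) :
    ∑ d ∈ Dv r, (mob (r / d) : ℝ) * ∑ e ∈ Dv d, g e = g r := by
  classical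
  have h1 : ∀ d ∈ Dv r, (mob (r / d) : ℝ) * ∑ e ∈ Dv d, g e =
      ∑ e ∈ Dv r, if e ∣ d then (mob (r / d) : ℝ) * g e else 0 := by
    intro d hd
    have hdm := (mem_Dv hr.ne_zero).1 hd
    rw [Finset.mul_sum, ← Finset.sum_filter]
    refine Finset.sum_congr ?_ fun _ _ => rfl
    ext e
    rw [Finset.mem_filter, mem_Dv hr.ne_zero, mem_Dv hdm.1.ne_zero]
    constructor
    · rintro ⟨h2, h3⟩
      exact ⟨⟨h2, h3.trans hdm.2⟩, h3⟩
    · rintro ⟨⟨h2, -⟩, h3⟩
      exact ⟨h2, h3⟩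
  rw [Finset.sum_congr rfl h1, Finset.sum_comm]
  have h2 : ∀ e ∈ Dv r, (∑ d ∈ Dv r, if e ∣ d then (mob (r / d) : ℝ) * g e else 0) =
      (∑ c ∈ Dv (r / e), (mob c : ℝ)) * g e := by
    intro e he
    obtain ⟨e1, e2, e3⟩ := div_facts hr he
    rw [← Finset.sum_filter, Finset.sum_mul]
    refine Finset.sum_nbij' (fun d => r / d) (fun c => r / c) ?_ ?_ ?_ ?_ ?_
    · intro d hd
      obtain ⟨hd1, hd2⟩ := Finset.mem_filter.1 hd
      obtain ⟨d1, d2, d3⟩ := div_facts hr hd1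
      obtain ⟨y, hy⟩ := hd2
      refine (mem_Dv e2.ne_zero).2 ⟨d2, ⟨y, ?_⟩⟩
      apply div_of_mul e1.ne_zero
      calc e * (r / d * y) = (e * y) * (r / d) := by ring
        _ = d * (r / d) := by rw [← hy]
        _ = r := d3
    · intro c hc
      obtain ⟨c1, c2⟩ := (mem_Dv e2.ne_zero).1 hc
      obtain ⟨y, hy⟩ := c2
      have hcr : c * (e * y) = r := by
        calc c * (e * y) = e * (c * y) := by ring
          _ = r := by rw [← hy, e3]
      have h4 : r / c = e * y := div_of_mul c1.ne_zero hcr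
      show r / c ∈ _
      rw [h4]
      refine Finset.mem_filter.2 ⟨(mem_Dv hr.ne_zero).2 ⟨?_, ⟨c, ?_⟩⟩, dvd_mul_right _ _⟩
      · exact c1.of_mul_monic_left (by rw [hcr]; exact hr)
      · rw [mul_comm, hcr]
    · intro d hd
      obtain ⟨d1, d2, d3⟩ := div_facts hr (Finset.mem_filter.1 hd).1
      exact div_of_mul d2.ne_zero (by rw [mul_comm]; exact d3)
    · intro c hc
      obtain ⟨c1, c2⟩ := (mem_Dv e2.ne_zero).1 hc
      have hcr : c ∈ Dv r := (mem_Dv hr.ne_zero).2 ⟨c1, c2.trans ⟨e, by rw [mul_comm]; exact e3.symm⟩⟩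
      obtain ⟨d1, d2, d3⟩ := div_facts hr hcr
      exact div_of_mul d2.ne_zero (by rw [mul_comm]; exact d3)
    · intro d _
      rfl
  rw [Finset.sum_congr rfl h2, Finset.sum_eq_single r]
  · obtain ⟨m1, -⟩ := hMOB F
    have h3 : r / r = 1 := EuclideanDomain.div_self hr.ne_zero
    rw [h3]
    have h4 : (∑ c ∈ Dv (1 : F[X]), (mob c : ℝ)) = ((∑ c ∈ Dv (1 : F[X]), mob c : ℤ) : ℝ) := by
      push_cast
      rfl
    rw [h4, m1]
    simp
  · intro e he hne
    obtain ⟨-, m2⟩ := hMOB F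
    obtain ⟨e1, e2, e3⟩ := div_facts hr he
    have h3 : r / e ≠ 1 := by
      intro h
      rw [h, mul_one] at e3
      exact hne e3
    have h4 : (∑ c ∈ Dv (r / e), (mob c : ℝ)) = ((∑ c ∈ Dv (r / e), mob c : ℤ) : ℝ) := by
      push_cast
      rfl
    rw [h4, m2 _ e2 h3]
    simp
  · intro h
    exact absurd ((mem_Dv hr.ne_zero).2 ⟨hr, dvd_refl _⟩) h

end

theorem hKLC (hBKD : StBKD) (hGEV : StGEV) (hMOB : StMOB) (hPHI : StPHI) : StKLC := by
  intro F _ _ k P hk hP r hr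
  obtain ⟨K, rfl⟩ : ∃ K, k = K + 1 := ⟨k - 1, by omega⟩
  rw [Nat.add_sub_cancel]
  have hq : qr F ≠ 0 := Nat.cast_ne_zero.2 Fintype.card_ne_zero
  have hch : ∀ d : F[X], ∃ Nn : ℝ[X], d ∈ Dv r → (Nn.natDegree ≤ (K + 1) * r.natDegree ∧
      PowerSeries.mk (fun n => Bkd (K + 1) d n) *
        (1 - PowerSeries.C (qr F) * PowerSeries.X) ^ (K + 1) = (Nn : PowerSeries ℝ)) := by
    intro d
    by_cases hd : d ∈ Dv r
    · obtain ⟨d1, d2⟩ := (mem_Dv hr.ne_zero).1 hd
      obtain ⟨Nn, h1, h2, -⟩ := hBKD F (K + 1) d d1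
      exact ⟨Nn, fun _ => ⟨h1.trans (Nat.mul_le_mul_left _
        (natDegree_le_of_dvd d2 hr.ne_zero)), h2⟩⟩
    · exact ⟨0, fun h => absurd h hd⟩
  choose Nn hNn using hch
  obtain ⟨-, p2, -⟩ := hP r hr
  obtain ⟨f1, -, -⟩ := hPHI F r hr
  have hphi : (phi r : ℝ) ≠ 0 := by
    have : phi r ≠ 0 := by omega
    exact_mod_cast this
  set D : ℕ := (K + 1) * r.natDegree with hD
  have hpoly : P r = C (1 / (phi r : ℝ)) * ∑ d ∈ Dv r,
      C ((mob (r / d) : ℝ) * qr F ^ d.natDegree) * Rp (qr F) K D (Nn d) := by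
    refine eq_of_infinite_eval_eq _ _ (Set.infinite_of_injective_forall_mem
      (f := fun n : ℕ => ((n + D : ℕ) : ℝ)) ?_ ?_)
    · intro a b hab
      have h1 : ((a + D : ℕ) : ℝ) = ((b + D : ℕ) : ℝ) := hab
      have h2 : a + D = b + D := by exact_mod_cast h1
      omega
    · intro m
      show (P r).eval ((m + D : ℕ) : ℝ) = _
      have h1 := p2 (m + D) (by omega)
      have h2 : qr F ^ (m + D) ≠ 0 := pow_ne_zero _ hq
      refine mul_left_cancel₀ h2 ?_
      rw [← h1, ak_eq, eval_mul, eval_C, eval_finsetSum, ← mul_assoc,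
        mul_comm (qr F ^ (m + D)) (1 / (phi r : ℝ)), mul_assoc]
      congr 1
      rw [Finset.mul_sum]
      refine Finset.sum_congr rfl fun d hd => ?_
      rw [rp_eval (qr F) hq K D (Nn d) (hNn d hd).1 _ (hNn d hd).2 (m + D) (by omega),
        eval_mul, eval_C]
      ring
  have hcoef : (P r).coeff K = (1 / (phi r : ℝ)) * ∑ d ∈ Dv r,
      (mob (r / d) : ℝ) * (Gk (K + 1) d * (K.factorial : ℝ)⁻¹) := by
    rw [hpoly, coeff_C_mul, finsetSum_coeff]
    congr 1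
    refine Finset.sum_congr rfl fun d hd => ?_
    rw [coeff_C_mul, rp_coeff _ _ _ _ (hNn d hd).1,
      hGEV F (K + 1) d (Nn d) ((mem_Dv hr.ne_zero).1 hd).1 (hNn d hd).2]
    have h2 : qr F ^ d.natDegree ≠ 0 := pow_ne_zero _ hq
    field_simp
  rw [hcoef]
  have h3 : ∀ d ∈ Dv r, (mob (r / d) : ℝ) * (Gk (K + 1) d * (K.factorial : ℝ)⁻¹) =
      ((mob (r / d) : ℝ) * ∑ e ∈ Dv d, (phi e : ℝ) / qr F ^ e.natDegree * Gk K e) *
        (K.factorial : ℝ)⁻¹ := by
    intro d _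
    show (mob (r / d) : ℝ) * ((∑ e ∈ Dv d, (phi e : ℝ) / qr F ^ e.natDegree * Gk K e) *
      (K.factorial : ℝ)⁻¹) = _
    ring
  rw [Finset.sum_congr rfl h3, ← Finset.sum_mul, inversion hMOB r hr]
  field_simp

end

end Pool.Agent.Helper36.FC
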