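import Pool.Agent.Helper15.FC.St2

/-!
# Project FC, module ORT: orthogonality of the characters of `F[X]/(X^(N+1))`
-/

set_option autoImplicit false

namespace Pool.Agent.Helper36.FC

open Pool.Agent.Helper15.FC Polynomial

/-- orthogonality for the multiplicative characters of a finite commutative ring -/
theorem ort_gen (M : Type) [CommRing M] [Finite M] (v w : M) (hw : IsUnit w) :
    (v = w → ∑ ξ ∈ allF (MulChar M ℂ), ξ v * (starRingEnd ℂ) (ξ w) = (Nat.card Mˣ : ℂ)) ∧
    (v ≠ w → ∑ ξ ∈ allF (MulChar M ℂ), ξ v * (starRingEnd ℂ) (ξ w) = 0) := by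
  classical
  have hne : NeZero ((Monoid.exponent Mˣ : ℕ) : ℂ) :=
    ⟨Nat.cast_ne_zero.2 Monoid.exponent_ne_zero_of_finite⟩
  have hroot : HasEnoughRootsOfUnity ℂ (Monoid.exponent Mˣ) := inferInstance
  have : Fintype (MulChar M ℂ) := Fintype.ofFinite _
  have hterm : ∀ ξ : MulChar M ℂ, ξ v * (starRingEnd ℂ) (ξ w) = ξ (v * Ring.inverse w) := by
    intro ξ
    have h1 : (starRingEnd ℂ) (ξ w) = ξ⁻¹ w := MulChar.star_apply' ξ w
    rw [h1, MulChar.inv_apply, map_mul]
  rw [allF_eq_univ]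
  simp only [hterm]
  constructor
  · intro h
    have h2 : v * Ring.inverse w = 1 := by rw [h, Ring.mul_inverse_cancel _ hw]
    rw [h2]
    simp only [map_one, Finset.sum_const, nsmul_eq_mul, mul_one, Finset.card_univ]
    rw [← Nat.card_eq_fintype_card, MulChar.card_eq_card_units_of_hasEnoughRootsOfUnity M ℂ]
  · intro h
    have h2 : v * Ring.inverse w ≠ 1 := by
      intro h3
      apply h
      calc v = v * (Ring.inverse w * w) := by rw [Ring.inverse_mul_cancel _ hw, mul_one]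
        _ = w := by rw [← mul_assoc, h3, one_mul]
    obtain ⟨χ, hχ⟩ := MulChar.exists_apply_ne_one_of_hasEnoughRootsOfUnity M ℂ h2
    refine eq_zero_of_mul_eq_self_left hχ ?_
    simp only [Finset.mul_sum, ← MulChar.mul_apply]
    exact Fintype.sum_bijective _ (Group.mulLeft_bijective χ) _ _ fun χ' => rfl

section

variable {F : Type} [Field F]

theorem ort_isUnit (N : ℕ) (f : F[X]) (hf : f.coeff 0 ≠ 0) :
    IsUnit (AdjoinRoot.mk (X ^ (N + 1) : F[X]) f) := by
  have h1 : IsCoprime f X := by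
    refine ⟨C (f.coeff 0)⁻¹, -(C (f.coeff 0)⁻¹ * f.divX), ?_⟩
    have h2 := Polynomial.divX_mul_X_add f
    have h3 : (C (f.coeff 0)⁻¹ : F[X]) * C (f.coeff 0) = 1 := by
      rw [← C_mul, inv_mul_cancel₀ hf, C_1]
    linear_combination (-(C (f.coeff 0)⁻¹ : F[X])) * h2 + h3
  obtain ⟨a, b, hab⟩ := h1.pow_right (n := N + 1)
  refine IsUnit.of_mul_eq_one (AdjoinRoot.mk (X ^ (N + 1) : F[X]) a) ?_
  rw [mul_comm, ← map_mul, ← map_one (AdjoinRoot.mk (X ^ (N + 1) : F[X])), AdjoinRoot.mk_eq_mk]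
  exact ⟨-b, by linear_combination hab⟩

theorem ort_coeff_ne (N : ℕ) (f : F[X]) (hf : IsUnit (AdjoinRoot.mk (X ^ (N + 1) : F[X]) f)) :
    f.coeff 0 ≠ 0 := by
  obtain ⟨y, hy⟩ := hf.exists_right_inv
  obtain ⟨g, rfl⟩ := AdjoinRoot.mk_surjective y
  rw [← map_mul, ← map_one (AdjoinRoot.mk (X ^ (N + 1) : F[X])), AdjoinRoot.mk_eq_mk] at hy
  obtain ⟨h, hh⟩ := hy
  have h1 := congrArg (fun p : F[X] => p.coeff 0) hh
  simp only [coeff_sub, mul_coeff_zero, coeff_one_zero, coeff_X_pow] at h1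
  intro h0
  rw [h0, zero_mul] at h1
  simp at h1

theorem ort_mk_inj (N : ℕ) (f g : F[X]) (hf : f.degree < (N + 1 : ℕ)) (hg : g.degree < (N + 1 : ℕ))
    (h : AdjoinRoot.mk (X ^ (N + 1) : F[X]) f = AdjoinRoot.mk (X ^ (N + 1) : F[X]) g) : f = g := by
  rw [AdjoinRoot.mk_eq_mk] at h
  have h1 : (f - g).degree < (X ^ (N + 1) : F[X]).degree := by
    rw [degree_X_pow]
    exact lt_of_le_of_lt (degree_sub_le f g) (max_lt hf hg)
  exact sub_eq_zero.1 (eq_zero_of_dvd_of_degree_lt h h1)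

end

theorem ort_card (F : Type) [Field F] [Fintype F] (N : ℕ) :
    (Nat.card (TN F N)ˣ : ℂ) = (uN F N : ℂ) := by
  classical
  let P : Fˣ × (Fin N → F) → F[X] := fun x => C (x.1 : F) + X * low x.2
  have hdeg : ∀ x, (P x).degree < (N + 1 : ℕ) := by
    intro x
    rw [degree_lt_iff_coeff_zero]
    intro j hj
    obtain ⟨i, rfl⟩ : ∃ i, j = i + 1 := ⟨j - 1, by omega⟩
    show (C (x.1 : F) + X * low x.2).coeff (i + 1) = 0
    rw [coeff_add, coeff_C, if_neg (Nat.succ_ne_zero i), zero_add, coeff_X_mul]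
    have h1 := low_degree x.2
    rw [degree_lt_iff_coeff_zero] at h1
    exact h1 i (by omega)
  have hc0 : ∀ x, (P x).coeff 0 = (x.1 : F) := by
    intro x
    show (C (x.1 : F) + X * low x.2).coeff 0 = _
    rw [coeff_add, coeff_C_zero, mul_coeff_zero, coeff_X_zero, zero_mul, add_zero]
  have hunit : ∀ x, IsUnit (AdjoinRoot.mk (X ^ (N + 1) : F[X]) (P x)) := fun x =>
    ort_isUnit N _ (by rw [hc0]; exact x.1.ne_zero)
  let Φ : Fˣ × (Fin N → F) → (TN F N)ˣ := fun x => (hunit x).unit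
  have hΦ : ∀ x, ((Φ x : (TN F N)ˣ) : TN F N) = AdjoinRoot.mk (X ^ (N + 1) : F[X]) (P x) :=
    fun x => (hunit x).unit_spec
  have hbij : Function.Bijective Φ := by
    constructor
    · intro x y hxy
      have h1 : AdjoinRoot.mk (X ^ (N + 1) : F[X]) (P x) = AdjoinRoot.mk (X ^ (N + 1) : F[X]) (P y) := by
        rw [← hΦ, ← hΦ, hxy]
      have h2 := ort_mk_inj N _ _ (hdeg x) (hdeg y) h1
      have h3 : (x.1 : F) = y.1 := by rw [← hc0, ← hc0, h2]
      have h4 : low x.2 = low y.2 := by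
        have h5 : C (x.1 : F) + X * low x.2 = C (y.1 : F) + X * low y.2 := h2
        rw [h3] at h5
        exact mul_left_cancel₀ X_ne_zero (add_left_cancel h5)
      exact Prod.ext (Units.ext h3) (low_injective h4)
    · intro u
      obtain ⟨f, hf⟩ := AdjoinRoot.mk_surjective (u : TN F N)
      set r : F[X] := f %ₘ (X ^ (N + 1)) with hr
      have hmon : (X ^ (N + 1) : F[X]).Monic := monic_X_pow _
      have hmk : AdjoinRoot.mk (X ^ (N + 1) : F[X]) r = u := by
        rw [← hf, AdjoinRoot.mk_eq_mk]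
        refine ⟨-(f /ₘ (X ^ (N + 1))), ?_⟩
        have := Polynomial.modByMonic_add_div f (X ^ (N + 1))
        linear_combination this
      have hrd : r.degree < (N + 1 : ℕ) := by
        have := Polynomial.degree_modByMonic_lt f hmon
        rwa [degree_X_pow] at this
      have hr0 : r.coeff 0 ≠ 0 := ort_coeff_ne N r (by rw [hmk]; exact u.isUnit)
      have hdX : r.divX ∈ Lw F N := by
        rw [mem_Lw, degree_lt_iff_coeff_zero]
        intro j hj
        rw [coeff_divX]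
        rw [degree_lt_iff_coeff_zero] at hrd
        exact hrd (j + 1) (by omega)
      unfold Lw at hdX
      rw [Finset.mem_image] at hdX
      obtain ⟨v, -, hv⟩ := hdX
      refine ⟨(Units.mk0 _ hr0, v), Units.ext ?_⟩
      rw [hΦ, ← hmk]
      congr 1
      show C (r.coeff 0) + X * low v = r
      have hv' : low v = r.divX := hv
      rw [hv']
      have := Polynomial.divX_mul_X_add r
      linear_combination this
  have hcard : Nat.card (TN F N)ˣ = (Nat.card F - 1) * Nat.card F ^ N := by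
    rw [← Nat.card_congr (Equiv.ofBijective Φ hbij), Nat.card_prod, Nat.card_units, Nat.card_fun,
      Nat.card_eq_fintype_card (α := Fin N), Fintype.card_fin]
  rw [hcard]
  unfold uN
  have h1 : 1 ≤ Nat.card F := Nat.card_pos
  rw [Nat.cast_mul, Nat.cast_sub h1, Nat.cast_pow, Nat.card_eq_fintype_card]
  push_cast
  rfl

theorem hORT : StORT := by
  intro F _ _ N v w _ hw
  obtain ⟨h1, h2⟩ := ort_gen (TN F N) (AdjoinRoot.mk (X ^ (N + 1) : F[X]) v)
    (AdjoinRoot.mk (X ^ (N + 1) : F[X]) w) (ort_isUnit N w hw)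
  exact ⟨fun h => (h1 h).trans (ort_card F N), h2⟩

end Pool.Agent.Helper36.FC
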